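import Mathlib

/-!
# MP_bbf25a: every vertical line contains infinitely many points of the primitive set

For every nonzero integer `a` there are infinitely many integers `b` with `(a, b) ∈ Λ'`.
The points come from the Gaussian parametrisation `κ = a + ib`, `k₁ = -κ (u + iv)` of
resonant triads and a Pell conic.
-/

namespace Pool.Agent.Results.MP_bbf25a_nt.VerticalLines

/-- The resonance equation. -/
def Resonant (a b x y : ℤ) : Prop :=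
  x * (a ^ 2 + b ^ 2) * (a ^ 2 + b ^ 2 - 2 * a * x - 2 * b * y)
    = a * (x ^ 2 + y ^ 2) * (x ^ 2 + y ^ 2 - 2 * a * x - 2 * b * y)

/-- The primitive wavevector set `Λ'`. -/
def LamPrime : Set (ℤ × ℤ) :=
  {p | ∃ x y : ℤ, Resonant p.1 p.2 x y ∧ p.1 * x * (p.1 - x) ≠ 0 ∧
    Int.gcd (Int.gcd p.1 p.2) (Int.gcd x y) = 1}

/-! ### Pell equations with congruence conditions -/

lemma not_isSquare_mul {D m : ℤ} (hD : ¬ IsSquare D) (hm : m ≠ 0) : ¬ IsSquare (D * m ^ 2) := by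
  rintro ⟨r, hr⟩
  apply hD
  have h1 : m ^ 2 ∣ r ^ 2 := ⟨D, by rw [pow_two r, ← hr]; ring⟩
  have h2 : m ∣ r := (Int.pow_dvd_pow_iff two_ne_zero).mp h1
  obtain ⟨c, rfl⟩ := h2
  refine ⟨c, ?_⟩
  have h3 : m ^ 2 * D = m ^ 2 * (c * c) := by rw [mul_comm, hr]; ring
  exact mul_left_cancel₀ (pow_ne_zero 2 hm) h3

lemma pell_large {D : ℤ} (hD0 : 0 < D) (hD : ¬ IsSquare D) {N J : ℤ} (hN : 0 < N) (hJ : 0 < J) :
    ∃ T s : ℤ, T ^ 2 - D * s ^ 2 = 1 ∧ J ≤ s ∧ 0 < T ∧ N ∣ s ∧ N ∣ T - 1 := by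
  have hNJ : N * J ≠ 0 := by positivity
  obtain ⟨t0, s0, h1, h2⟩ := Pell.exists_of_not_isSquare (d := D * (N * J) ^ 2) (by positivity)
    (not_isSquare_mul hD hNJ)
  -- make both positive
  obtain ⟨t, s, h1, hs, ht⟩ : ∃ t s : ℤ, t ^ 2 - D * (N * J) ^ 2 * s ^ 2 = 1 ∧ 0 < s ∧ 0 < t := by
    refine ⟨|t0|, |s0|, by rw [sq_abs, sq_abs]; exact h1, abs_pos.mpr h2, ?_⟩
    rw [abs_pos]
    rintro rfl
    have : 0 < D * (N * J) ^ 2 * s0 ^ 2 := by positivity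
    linarith
  refine ⟨1 + 2 * D * (N * J * s) ^ 2, 2 * t * (N * J * s), ?_, ?_, by positivity, ?_, ?_⟩
  · linear_combination (-4 * D * (N * J * s) ^ 2) * h1
  · have h3 : 1 ≤ t * N * s := by
      have : 0 < t * N * s := by positivity
      linarith
    nlinarith
  · exact ⟨2 * t * (J * s), by ring⟩
  · exact ⟨2 * D * (J * s) * (N * J * s), by ring⟩

/-! ### The parametrisation -/

lemma resonant_of {a b u v : ℤ}
    (h : a * ((u ^ 2 + v ^ 2) ^ 2 + 2 * u * (u ^ 2 + v ^ 2) + 2 * u ^ 2 + u)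
      = b * (v * (2 * u + 1))) :
    Resonant a b (b * v - a * u) (-(b * u + a * v)) := by
  unfold Resonant
  linear_combination (-(a ^ 2 + b ^ 2) ^ 2) * h

lemma ineq_c {E P : ℤ} (hE : 1 ≤ E) (hP : 2 ≤ P) : 4 ≤ E ^ 2 * P ^ 2 := by
  have h1 : 2 ≤ E * P := by nlinarith
  have h2 : E ^ 2 * P ^ 2 = (E * P) * (E * P) := by ring
  rw [h2]
  nlinarith

lemma ineq_yb {E P K y b : ℤ} (hE : 1 ≤ E) (hP : 2 ≤ P) (hK : 1 ≤ K) (hy : 1 ≤ y)
    (h : E ^ 2 * P * K * y ≤ 2 * b) : y ≤ b := by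
  have h1 : 1 ≤ E ^ 2 := one_le_pow₀ hE
  have h2 : 2 ≤ E ^ 2 * P := by nlinarith
  have h3 : 2 ≤ E ^ 2 * P * K := by nlinarith
  have h4 : 2 * y ≤ E ^ 2 * P * K * y := mul_le_mul_of_nonneg_right h3 (by linarith)
  linarith

lemma ineq_xw {E P K y b a1 u : ℤ} (hE : 1 ≤ E) (hP : 2 ≤ P) (hK : 1 ≤ K) (hy : 1 ≤ y)
    (haK : a1 ≤ K) (hu : a1 * (2 * u + 1) = K)
    (h : E ^ 2 * P * K * y ≤ 2 * b) : E * a1 < b * (E * P * y) - E * a1 * u := by
  have h0 : 0 < E * P * y := by positivity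
  have h3 : E ^ 2 * P * K * y * (E * P * y) ≤ 2 * b * (E * P * y) :=
    mul_le_mul_of_nonneg_right h h0.le
  have h7 : 4 ≤ E ^ 2 * P ^ 2 := ineq_c hE hP
  have h8 : 1 ≤ y ^ 2 := one_le_pow₀ hy
  have h9 : 4 ≤ E ^ 2 * P ^ 2 * y ^ 2 := by nlinarith
  have h10 : 0 < E * K := by positivity
  have h5 : 4 * (E * K) ≤ E ^ 2 * P * K * y * (E * P * y) := by
    have h6 : E ^ 2 * P * K * y * (E * P * y) = (E ^ 2 * P ^ 2 * y ^ 2) * (E * K) := by ring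
    rw [h6]
    exact mul_le_mul_of_nonneg_right h9 h10.le
  have h11 : E * a1 ≤ E * K := mul_le_mul_of_nonneg_left haK (by linarith)
  have h12 : 2 * (E * a1 * u) = E * K - E * a1 := by rw [← hu]; ring
  linarith

/-- The construction for one solution of the conic. -/
lemma point_of_conic (e f : ℕ) (hf : 1 ≤ f) (a1 g : ℤ) (ha1 : 0 < a1) (ha1o : Odd a1)
    (hg : Odd g) (hag : 9 * a1 ^ 2 - 1 = 4 * 2 ^ f * g)
    {C F G k N x y h1 h2 : ℤ}
    (hC : C = 4 * (2 ^ e) ^ 2 * (2 ^ f) ^ 2) (hF : F = C - 3) (hG : G = a1 ^ 2 * F ^ 2)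
    (hk : k = G * (C + 1) + 3) (hN : N = 3 * F * a1 * C)
    (hx : x = C + 1 + N * h1) (hy : y = 1 + N * h2) (hx0 : 0 < x) (hy0 : 0 < y)
    (hconic : G * x ^ 2 - k * x * y + 3 * C * y ^ 2 = -3) :
    ∃ b : ℤ, y ≤ b ∧ ((2 ^ e * a1, b) : ℤ × ℤ) ∈ LamPrime := by
  obtain ⟨E, hE⟩ : ∃ E : ℤ, E = 2 ^ e := ⟨_, rfl⟩
  obtain ⟨P, hP⟩ : ∃ P : ℤ, P = 2 ^ f := ⟨_, rfl⟩
  have hE1 : 1 ≤ E := by rw [hE]; exact one_le_pow₀ (by norm_num)
  obtain ⟨P', hP'⟩ : ∃ P' : ℤ, P = 2 * P' := by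
    obtain ⟨f', rfl⟩ : ∃ f', f = f' + 1 := ⟨f - 1, by omega⟩
    exact ⟨2 ^ f', by rw [hP]; ring⟩
  have hP2 : 2 ≤ P := by
    have : 0 < P := by rw [hP]; positivity
    omega
  have hcopP : ∀ n : ℤ, Odd n → IsCoprime (16 * P) n := by
    intro n hn
    have h2 : IsCoprime (2 : ℤ) n := by
      obtain ⟨j, hj⟩ := hn
      exact ⟨-j, 1, by rw [hj]; ring⟩
    have : (16 * P : ℤ) = 2 ^ (f + 4) := by rw [hP]; ring
    rw [this]
    exact h2.pow_left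
  have hcopE : ∀ n : ℤ, Odd n → IsCoprime E n := by
    intro n hn
    have h2 : IsCoprime (2 : ℤ) n := by
      obtain ⟨j, hj⟩ := hn
      exact ⟨-j, 1, by rw [hj]; ring⟩
    rw [hE]
    exact h2.pow_left
  rw [← hE, ← hP] at hC
  rw [← hP] at hag
  rw [← hE]
  have hC16 : 16 ≤ C := by
    have h3 := ineq_c hE1 hP2
    rw [hC]
    linarith
  have hF13 : 13 ≤ F := by rw [hF]; linarith
  -- auxiliary quantities
  obtain ⟨w, hw⟩ : ∃ w : ℤ, (C + 1) * y - x = 3 * w :=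
    ⟨F * a1 * C * ((C + 1) * h2 - h1), by rw [hx, hy, hN]; ring⟩
  have hP1 : C * y ^ 2 + 1 = x * (y + G * w) := by
    have : 3 * (C * y ^ 2 + 1) = 3 * (x * (y + G * w)) := by
      rw [hk] at hconic
      linear_combination hconic + G * x * hw
    linarith
  have hP3 : C * y ^ 2 - 3 = F * (1 + 3 * a1 * C ^ 2 * h2 * (y + 1)) := by
    rw [hN] at hy
    have hy1 : y - 1 = 3 * F * a1 * C * h2 := by linarith
    linear_combination C * (y + 1) * hy1 - hF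
  obtain ⟨P1, hP1d⟩ : ∃ P1 : ℤ, P1 = y + G * w := ⟨_, rfl⟩
  obtain ⟨P3, hP3d⟩ : ∃ P3 : ℤ, P3 = 1 + 3 * a1 * C ^ 2 * h2 * (y + 1) := ⟨_, rfl⟩
  rw [← hP1d] at hP1
  rw [← hP3d] at hP3
  obtain ⟨U, hU⟩ : ∃ U : ℤ, U = a1 * F * x := ⟨_, rfl⟩
  have hU2 : U ^ 2 = G * x ^ 2 := by rw [hU, hG]; ring
  have hU3 : U ^ 2 + 3 = y * (k * x - 3 * C * y) := by
    rw [hU2]; linear_combination hconic
  obtain ⟨B, hB⟩ : ∃ B : ℤ,
      B = U ^ 4 + 2 * U ^ 2 * (C * y ^ 2 + 1) + (C * y ^ 2 + 1) * (C * y ^ 2 - 3) := ⟨_, rfl⟩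
  obtain ⟨E1, hE1d⟩ : ∃ E1 : ℤ,
      E1 = a1 ^ 2 * F * x * (U ^ 2 + 2 * C * y ^ 2 + 2) + P1 * P3 := ⟨_, rfl⟩
  have hBE1 : B = F * x * E1 := by
    have hU2' : U ^ 2 = a1 ^ 2 * F ^ 2 * x ^ 2 := by rw [hU]; ring
    rw [hB, hE1d]
    have : (C * y ^ 2 + 1) * (C * y ^ 2 - 3) = (x * P1) * (F * P3) := by rw [hP1, hP3]
    rw [this]
    linear_combination (U ^ 2 + 2 * C * y ^ 2 + 2) * hU2'
  -- y divides E1
  have hcy : IsCoprime y (F * x) := by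
    apply IsCoprime.mul_right
    · exact ⟨1, -(3 * a1 * C * h2), by rw [hy, hN]; ring⟩
    · exact ⟨-(C * y), P1, by linear_combination -hP1⟩
  have hyB : y ∣ F * x * E1 := by
    rw [← hBE1]
    refine ⟨(k * x - 3 * C * y) * (U ^ 2 - 1) + C * y * (2 * U ^ 2 + C * y ^ 2 - 2), ?_⟩
    rw [hB]
    linear_combination (U ^ 2 - 1) * hU3
  obtain ⟨E2, hE2⟩ : y ∣ E1 := hcy.dvd_of_dvd_mul_left hyB
  have hBE2 : B = F * x * y * E2 := by rw [hBE1, hE2]; ring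
  -- 2-adic part
  obtain ⟨r, hr⟩ : ∃ r : ℤ, U = -3 * a1 + C * r := by
    refine ⟨a1 * (1 + F * (1 + 3 * F * a1 * h1)), ?_⟩
    rw [hU, hx, hN, hF]
    ring
  obtain ⟨g', hg'⟩ : ∃ g' : ℤ, g' = g + E ^ 2 * P * (C * r ^ 2 - 6 * a1 * r) := ⟨_, rfl⟩
  have hg'o : Odd g' := by
    rw [hg', hP']
    apply Odd.add_even hg
    exact ⟨E ^ 2 * P' * (C * r ^ 2 - 6 * a1 * r), by ring⟩
  have hU1 : U ^ 2 - 1 = 4 * P * g' := by
    rw [hr, hg']
    linear_combination hag + (C * r ^ 2 - 6 * a1 * r) * hC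
  obtain ⟨R, hR⟩ : ∃ R : ℤ,
      R = g' * (1 + P * g') + 2 * E ^ 2 * P ^ 2 * g' * y ^ 2 + E ^ 4 * P ^ 3 * y ^ 4 := ⟨_, rfl⟩
  have hRo : Odd R := by
    rw [hR]
    apply Odd.add_even
    · apply Odd.add_even
      · apply Odd.mul hg'o
        rw [hP']
        exact ⟨P' * g', by ring⟩
      · exact ⟨E ^ 2 * P ^ 2 * g' * y ^ 2, by ring⟩
    · rw [hP']
      exact ⟨E ^ 4 * (4 * P' ^ 3) * y ^ 4, by ring⟩
  have hBR : B = 16 * P * R := by
    have hU4 : U ^ 2 = 4 * P * g' + 1 := by linarith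
    have : U ^ 4 = (U ^ 2) ^ 2 := by ring
    rw [hB, this, hU4, hR, hC]
    ring
  have hFo : Odd F := by rw [hF, hC]; exact ⟨2 * E ^ 2 * P ^ 2 - 2, by ring⟩
  have hCe : Even C := by rw [hC]; exact ⟨2 * E ^ 2 * P ^ 2, by ring⟩
  have hNe : Even N := by rw [hN]; exact hCe.mul_left _
  have hxo : Odd x := by
    rw [hx]
    exact (hCe.add_one).add_even (hNe.mul_right _)
  have hyo : Odd y := by
    rw [hy]
    exact odd_one.add_even (hNe.mul_right _)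
  have hFxyo : Odd (F * x * y) := (hFo.mul hxo).mul hyo
  obtain ⟨b, hb⟩ : 16 * P ∣ E2 := by
    apply (hcopP _ hFxyo).dvd_of_dvd_mul_left
    rw [← hBE2, hBR]
    exact dvd_mul_right _ _
  have hP0 : P ≠ 0 := by linarith
  have hFR : F * x * y * b = R := by
    have h3 : (16 * P) * (F * x * y * b) = (16 * P) * R := by
      rw [← hBR, hBE2, hb]; ring
    exact mul_left_cancel₀ (mul_ne_zero (by norm_num) hP0) h3
  have hbo : Odd b := by
    rw [← hFR] at hRo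
    exact (Int.odd_mul.mp hRo).2
  -- coprimality with a1
  have hE1a : a1 ∣ E1 - 1 := by
    have q1 : P1 - 1 = a1 * (3 * F * C * h2 + a1 * F ^ 2 * w) := by
      rw [hP1d, hG, hy, hN]; ring
    have q3 : P3 - 1 = a1 * (3 * C ^ 2 * h2 * (y + 1)) := by rw [hP3d]; ring
    refine ⟨a1 * F * x * (U ^ 2 + 2 * C * y ^ 2 + 2)
      + (3 * F * C * h2 + a1 * F ^ 2 * w) * P3 + 3 * C ^ 2 * h2 * (y + 1), ?_⟩
    rw [hE1d]
    linear_combination P3 * q1 + q3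
  have hcab : IsCoprime a1 b := by
    have h3 : IsCoprime a1 E1 := by
      obtain ⟨j, hj⟩ := hE1a
      exact ⟨-j, 1, by linear_combination hj⟩
    refine h3.of_isCoprime_of_dvd_right ?_
    rw [hE2, hb]
    exact ⟨y * (16 * P), by ring⟩
  have hcop : IsCoprime (E * a1) b := (hcopE b hbo).mul_left hcab
  -- size
  have hP1pos : 0 < P1 := by
    have h3 : 0 < x * P1 := by rw [← hP1]; positivity
    by_contra hcon
    have h4 : x * P1 ≤ 0 := mul_nonpos_of_nonneg_of_nonpos hx0.le (not_lt.mp hcon)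
    linarith
  have hy1 : 1 ≤ y := hy0
  have hx1 : 1 ≤ x := hx0
  have hy21 : 1 ≤ y ^ 2 := one_le_pow₀ hy1
  have hP3pos : 0 < P3 := by
    have h3 : 0 < F * P3 := by
      rw [← hP3]
      have : 16 * 1 ≤ C * y ^ 2 := mul_le_mul hC16 hy21 (by norm_num) (by linarith)
      linarith
    by_contra hcon
    have h4 : F * P3 ≤ 0 := mul_nonpos_of_nonneg_of_nonpos (by linarith) (not_lt.mp hcon)
    linarith
  have hK : 0 < a1 ^ 2 * F * x := by positivity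
  have hE1lo : a1 ^ 2 * F * x * (2 * C * y ^ 2) ≤ E1 := by
    rw [hE1d]
    have h3 : 0 ≤ a1 ^ 2 * F * x * (U ^ 2 + 2) := by positivity
    have h4 : 0 < P1 * P3 := by positivity
    linarith
  have hblo : E ^ 2 * P * (a1 ^ 2 * F * x) * y ≤ 2 * b := by
    have h3 : E1 = y * (16 * P * b) := by rw [hE2, hb]
    rw [h3, hC] at hE1lo
    have h4 : (8 * P * y) * (E ^ 2 * P * (a1 ^ 2 * F * x) * y) ≤ (8 * P * y) * (2 * b) := by
      linarith
    exact le_of_mul_le_mul_left h4 (by positivity)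
  have ha1' : 1 ≤ a1 := ha1
  have hK1 : 1 ≤ a1 ^ 2 * F * x := hK
  have hyb : y ≤ b := ineq_yb hE1 hP2 hK1 hy1 hblo
  -- the partner
  obtain ⟨u, hu⟩ : ∃ u : ℤ, U = 2 * u + 1 := by
    rw [hU]; exact (ha1o.mul hFo).mul hxo
  have hv : 4 * (E * P * y) ^ 2 = C * y ^ 2 := by rw [hC]; ring
  have hB0 : 16 * ((u ^ 2 + (E * P * y) ^ 2) ^ 2 + 2 * u * (u ^ 2 + (E * P * y) ^ 2)
      + 2 * u ^ 2 + u) = B := by
    rw [hB, ← hv, hu]; ring
  have hmain : (E * a1) * ((u ^ 2 + (E * P * y) ^ 2) ^ 2 + 2 * u * (u ^ 2 + (E * P * y) ^ 2)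
      + 2 * u ^ 2 + u) = b * ((E * P * y) * (2 * u + 1)) := by
    have h3 : 16 * ((E * a1) * ((u ^ 2 + (E * P * y) ^ 2) ^ 2
        + 2 * u * (u ^ 2 + (E * P * y) ^ 2) + 2 * u ^ 2 + u))
        = 16 * (b * ((E * P * y) * (2 * u + 1))) := by
      rw [← hu, hU]
      have h4 : B = 16 * P * (F * x * y * b) := by rw [hBR, hFR]
      linear_combination (E * a1) * hB0 + (E * a1) * h4
    linarith
  have haK : a1 ≤ a1 ^ 2 * F * x := by
    have h3 : 1 ≤ a1 * F * x := by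
      have : 0 < a1 * F * x := by positivity
      linarith
    have h4 : a1 * 1 ≤ a1 * (a1 * F * x) := mul_le_mul_of_nonneg_left h3 ha1.le
    linarith
  have huK : a1 * (2 * u + 1) = a1 ^ 2 * F * x := by rw [← hu, hU]; ring
  have hxw : E * a1 < b * (E * P * y) - E * a1 * u :=
    ineq_xw hE1 hP2 hK1 hy1 haK huK hblo
  refine ⟨b, hyb, b * (E * P * y) - E * a1 * u, -(b * u + E * a1 * (E * P * y)),
    resonant_of hmain, ?_, ?_⟩
  · have h3 : 0 < E * a1 := by positivity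
    simp only
    apply mul_ne_zero (mul_ne_zero h3.ne' (by linarith))
    linarith
  · simp only
    rw [Int.isCoprime_iff_gcd_eq_one.mp hcop]
    simp

lemma disc_not_square {G C : ℤ} (hG : 1 ≤ G) (hC : 16 ≤ C) :
    ¬ IsSquare ((G * (C + 1) - 3) ^ 2 + 12 * G) := by
  rintro ⟨r, hr⟩
  obtain ⟨M, hM⟩ : ∃ M : ℤ, M = G * (C + 1) - 3 := ⟨_, rfl⟩
  have h1 : 17 * G ≤ M + 3 := by rw [hM]; nlinarith
  rw [← hM] at hr
  have h2 : |r| * |r| = M ^ 2 + 12 * G := by rw [abs_mul_abs_self, hr]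
  have h3 : 0 ≤ |r| := abs_nonneg r
  have h4 : M < |r| := by
    by_contra hcon
    have : |r| * |r| ≤ M * M := mul_le_mul (not_lt.mp hcon) (not_lt.mp hcon) h3 (by linarith)
    nlinarith
  have h5 : |r| < M + 1 := by
    by_contra hcon
    have : (M + 1) * (M + 1) ≤ |r| * |r| :=
      mul_le_mul (not_lt.mp hcon) (not_lt.mp hcon) (by linarith) h3
    nlinarith
  linarith

/-- The points with positive first coordinate `2 ^ e * a1`. -/
lemma exists_large (e j : ℕ) {J : ℤ} (hJ : 0 < J) :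
    ∃ b : ℤ, J ≤ b ∧ ((2 ^ e * (2 * (j : ℤ) + 1), b) : ℤ × ℤ) ∈ LamPrime := by
  obtain ⟨f, g0, hg0, hw⟩ := Nat.exists_eq_two_pow_mul_odd (n := 9 * (j * (j + 1)) + 2) (by omega)
  have hf : 1 ≤ f := by
    by_contra hcon
    have hf0 : f = 0 := by omega
    subst hf0
    rw [pow_zero, one_mul] at hw
    have h1 : Even (j * (j + 1)) := Nat.even_mul_succ_self j
    obtain ⟨i, hi⟩ := h1
    obtain ⟨l, hl⟩ := hg0
    omega
  obtain ⟨a1, ha1⟩ : ∃ a1 : ℤ, a1 = 2 * (j : ℤ) + 1 := ⟨_, rfl⟩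
  have ha1pos : 0 < a1 := by rw [ha1]; positivity
  have ha1odd : Odd a1 := ⟨j, ha1⟩
  have hag : 9 * a1 ^ 2 - 1 = 4 * 2 ^ f * (g0 : ℤ) := by
    have h1 : (9 * ((j : ℤ) * (j + 1)) + 2) = 2 ^ f * (g0 : ℤ) := by exact_mod_cast hw
    rw [ha1]
    linear_combination 4 * h1
  obtain ⟨C, hC⟩ : ∃ C : ℤ, C = 4 * (2 ^ e) ^ 2 * (2 ^ f) ^ 2 := ⟨_, rfl⟩
  obtain ⟨F, hF⟩ : ∃ F : ℤ, F = C - 3 := ⟨_, rfl⟩
  obtain ⟨G, hG⟩ : ∃ G : ℤ, G = a1 ^ 2 * F ^ 2 := ⟨_, rfl⟩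
  obtain ⟨k, hk⟩ : ∃ k : ℤ, k = G * (C + 1) + 3 := ⟨_, rfl⟩
  obtain ⟨N, hN⟩ : ∃ N : ℤ, N = 3 * F * a1 * C := ⟨_, rfl⟩
  have hC16 : 16 ≤ C := by
    have hE : (1 : ℤ) ≤ 2 ^ e := one_le_pow₀ (by norm_num)
    have hP : (2 : ℤ) ≤ 2 ^ f := by
      calc (2 : ℤ) = 2 ^ 1 := by norm_num
        _ ≤ 2 ^ f := pow_le_pow_right₀ (by norm_num) hf
    have h3 := ineq_c hE hP
    rw [hC]
    linarith
  have hF13 : 13 ≤ F := by rw [hF]; linarith
  have hG1 : 1 ≤ G := by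
    have : 0 < G := by rw [hG]; positivity
    linarith
  have hNpos : 0 < N := by rw [hN]; positivity
  obtain ⟨T, s, hTs, hJs, hT, ⟨s', hs'⟩, ⟨t', ht'⟩⟩ := pell_large
    (D := (G * (C + 1) - 3) ^ 2 + 12 * G) (by positivity) (disc_not_square hG1 hC16) hNpos hJ
  obtain ⟨x, hx⟩ : ∃ x : ℤ, x = T * (C + 1) + s * (k * (C + 1) - 6 * C) := ⟨_, rfl⟩
  obtain ⟨y, hy⟩ : ∃ y : ℤ, y = T + s * (G * (C + 1) - 3) := ⟨_, rfl⟩
  have hs0 : 0 < s := lt_of_lt_of_le hJ hJs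
  have hGC : 17 ≤ G * (C + 1) := by nlinarith
  have hyJ : J ≤ y := by
    rw [hy]
    nlinarith
  have hkC : 0 < k * (C + 1) - 6 * C := by
    rw [hk]
    nlinarith
  have hx0 : 0 < x := by rw [hx]; positivity
  have hconic : G * x ^ 2 - k * x * y + 3 * C * y ^ 2 = -3 := by
    rw [hx, hy, hk]
    linear_combination (-3) * hTs
  obtain ⟨b, hb, hmem⟩ := point_of_conic e f hf a1 g0 ha1pos ha1odd (by exact_mod_cast hg0) hag
    hC hF hG hk hN (x := x) (y := y) (h1 := t' * (C + 1) + s' * (k * (C + 1) - 6 * C))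
    (h2 := t' + s' * (G * (C + 1) - 3))
    (by rw [hx, hs']; linear_combination (C + 1) * ht')
    (by rw [hy, hs']; linear_combination ht') hx0 (lt_of_lt_of_le hJ hyJ) hconic
  rw [ha1] at hmem
  exact ⟨b, hyJ.trans hb, hmem⟩

lemma exists_large' {a : ℤ} (ha : 0 < a) (J : ℤ) : ∃ b : ℤ, J < b ∧ (a, b) ∈ LamPrime := by
  obtain ⟨e, m, hm, h⟩ := Nat.exists_eq_two_pow_mul_odd (n := a.toNat) (by omega)
  obtain ⟨j, hj⟩ := hm
  have ha' : a = 2 ^ e * (2 * (j : ℤ) + 1) := by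
    have h1 : ((a.toNat : ℕ) : ℤ) = a := Int.toNat_of_nonneg ha.le
    rw [← h1, h, hj]
    push_cast
    ring
  obtain ⟨b, hb, hmem⟩ := exists_large e j (J := |J| + 1) (by positivity)
  refine ⟨b, ?_, by rw [ha']; exact hmem⟩
  have := le_abs_self J
  linarith

lemma mem_neg {a b : ℤ} (h : (a, b) ∈ LamPrime) : (-a, -b) ∈ LamPrime := by
  obtain ⟨x, y, h1, h2, h3⟩ := h
  refine ⟨-x, -y, ?_, ?_, ?_⟩
  · unfold Resonant at h1 ⊢
    simp only at h1 ⊢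
    linear_combination -h1
  · simp only at h2 ⊢
    intro h0
    apply h2
    linear_combination -h0
  · simp only [Int.gcd_neg, Int.neg_gcd] at h3 ⊢
    exact h3

/-- **MP_bbf25a, Q1, proved.**  For every nonzero integer `a` there are infinitely many integers
`b` such that `(a, b)` belongs to the primitive wavevector set `Λ'`. -/
theorem result : ∀ a : ℤ, a ≠ 0 → {b : ℤ | (a, b) ∈ LamPrime}.Infinite := by
  intro a ha
  rcases lt_or_gt_of_ne ha with h | h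
  · apply Set.infinite_of_forall_exists_lt
    intro J
    obtain ⟨b, hb, hmem⟩ := exists_large' (a := -a) (by linarith) (-J)
    refine ⟨-b, ?_, by linarith⟩
    have := mem_neg hmem
    rw [neg_neg] at this
    exact this
  · apply Set.infinite_of_forall_exists_gt
    intro J
    obtain ⟨b, hb, hmem⟩ := exists_large' h J
    exact ⟨b, hmem, hb⟩

end Pool.Agent.Results.MP_bbf25a_nt.VerticalLines
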